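import Pool.Agent.H310R3.I4
import Pool.Agent.H725R3.Inh.Nat
import Pool.Agent.H310R3.InhWo
import Pool.Agent.H340R3.Inh.Fs
import Pool.Agent.H689R3.InhQ
import Pool.Agent.H471R3.Inh.Intv
import Pool.Agent.H468R3.Inh.Enum
import Pool.Agent.H175R3.Inh.Rank
import Pool.Agent.H396R4.Inh.Cuts
import Pool.Agent.Helper60.Inh.Glue
import Pool.Agent.H558R3.InhSeq
import Pool.Agent.H929R3.Inh.Bridge
import Pool.Agent.H107R3.Inh.BPI
import Pool.Agent.H941R3.Inh.IDF

/-!
# Non-scattered compactifications without BPI and IDFBI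

There is a model of ZF in which INSHC holds (every infinite discrete space has a Hausdorff
compactification that is not scattered), and in which BPI and IDFBI fail. The first half of the
theorem is proved outright, the second half gives such a model from every model of ZF (in the
universe Type 1) in which every set has a well-order.
-/

namespace Pool.Agent.Results.MP_2291ab_lc.INSHCWithoutBPI

open FirstOrder FirstOrder.Language
open Pool.Agent.Helper672.Plain (LSet)
open Pool.Agent.H635Amen (ZF)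
open Pool.Agent.H310NAS (INSHC WO)
open Pool.Agent.H310R3.Inh (BPI IDFBI)

theorem rel (M : Type 1) [LSet.Structure M] (h : ZF M) (hW : WO M) :
    ∃ (N : Type 1) (_ : LSet.Structure N), ZF N ∧ INSHC N ∧ ¬ BPI N ∧ ¬ IDFBI N :=
  Pool.Agent.H310.IN.exists_inh M h hW Pool.Agent.H725R3.Inh.taskNat Pool.Agent.H310R3.InhWo.taskWo
    Pool.Agent.H340R3.InhFs.taskFs Pool.Agent.H689R3.InhQ.taskQ Pool.Agent.H471R3.Inh.taskIntv
    Pool.Agent.H468R3.Inh.taskEnum Pool.Agent.H175R3.Inh.taskRank Pool.Agent.H396R4.Inh.taskCuts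
    Pool.Agent.Helper60.Inh.taskGlue Pool.Agent.H558R3.InhSeq.taskSeq
    Pool.Agent.H929R3.InhBridge.taskBridge Pool.Agent.H107R3.Inh.taskBPI
    Pool.Agent.H941R3.Inh.taskIDF

theorem outright : ∃ (N : Type 1) (_ : LSet.Structure N), ZF N ∧ INSHC N ∧ ¬ BPI N ∧ ¬ IDFBI N :=
  letI := Pool.Agent.H310.NA.zs.{0}
  rel ZFSet.{0} Pool.Agent.H310.NA.zf_zs Pool.Agent.H310.NA.wo_zs

theorem result :
    (∃ (N : Type 1) (_ : LSet.Structure N), ZF N ∧ INSHC N ∧ ¬ BPI N ∧ ¬ IDFBI N) ∧
    ∀ (M : Type 1) [LSet.Structure M], ZF M → WO M →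
      ∃ (N : Type 1) (_ : LSet.Structure N), ZF N ∧ INSHC N ∧ ¬ BPI N ∧ ¬ IDFBI N :=
  ⟨outright, fun M _ h hW => rel M h hW⟩

end Pool.Agent.Results.MP_2291ab_lc.INSHCWithoutBPI
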